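import Pool.Agent.FX65.NecBound
import Pool.Agent.FF79.Coh23

set_option autoImplicit false

/-!
# FX79/Coh: coherent gluing data are phases `0`, `q`; dimensions 2 and 3: `q = 1`

`simple_of_glue`: gluing data `g : Glue P` with the ridge condition give phases `x u = q` for `u ∈ g.I` and `x u = 0` for the
other facets, for every `q ≥ 1`. `nec_bound3`: `nec_bound` with `q = 1` in dimensions 2 and 3.
-/

open Set Metric
open scoped RealInnerProductSpace

namespace Pool.FX79

open Pool.FF24 Pool.FF56 Pool.FF57 Pool.FX65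

variable {E : Type*} [NormedAddCommGroup E] [InnerProductSpace ℝ E] {P : HPoly E}

open Classical in
/-- the phases of coherent gluing data -/
noncomputable def xg (g : Glue P) (q : ℕ) : E → ZMod (2 * q) := fun u => if u ∈ g.I then (q : ZMod (2 * q)) else 0

theorem xg_pos (g : Glue P) (q : ℕ) {u : E} (h : u ∈ g.I) : xg g q u = q := if_pos h

theorem xg_neg (g : Glue P) (q : ℕ) {u : E} (h : u ∉ g.I) : xg g q u = 0 := if_neg h

theorem back (g : Glue P) {u : E} (hu : u ∈ P.N) (hI : u ∉ g.I) :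
    ∀ z ∈ P.fc (-u), z + g.c (-u) ∈ P.fc u := by
  intro z hz
  have h2 := g.tr _ (g.negN _ hu hI) (g.negI _ hu hI) z hz
  rwa [neg_neg] at h2

theorem phases_of_glue (g : Glue P) {q : ℕ} (hq : 0 < q) : FX56.Phases P q (xg g q) where
  pos := hq
  inv := fun u hu hx => by
    have hI : u ∈ g.I := by
      by_contra h
      exact hx (xg_neg g q h)
    exact ⟨g.c u, g.inv u hu hI⟩
  tra := fun u hu hx => by
    have hI : u ∉ g.I := fun h => hx (xg_pos g q h)
    refine ⟨g.negN u hu hI, g.c u, fun z => ⟨g.tr u hu hI z, fun hz => ?_⟩⟩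
    have h4 : g.c u + g.c (-u) = 0 :=
      tr_zero (CC95.fc_ne' P hu) (CC95.fc_bdd' P u) fun y hy => by
        rw [← add_assoc]
        exact back g hu hI _ (g.tr u hu hI y hy)
    have h5 := back g hu hI _ hz
    rw [add_assoc, h4, add_zero] at h5
    exact h5
  odd := fun u hu hx => by
    have hI : u ∉ g.I := fun h => hx (xg_pos g q h)
    rw [xg_neg g q hI, xg_neg g q (g.negI u hu hI), neg_zero]

theorem inv_iff (g : Glue P) {q : ℕ} (hq : 0 < q) (u : E) (t : ZMod (2 * q)) :
    u ∈ FX56.Inv (xg g q) t ↔ u ∈ g.I := by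
  constructor
  · intro h
    by_contra hI
    exact FX56.ne_zero_of_inv h (xg_neg g q hI)
  · intro h
    exact FX56.inv_of_eq_q hq (xg_pos g q h) t

theorem nxt_eq (g : Glue P) (q : ℕ) (t : ZMod (2 * q)) (u : E) :
    FX56.nxt (xg g q) t u = t + xg g q u := by
  unfold FX56.nxt
  split
  · rfl
  · by_cases h : u ∈ g.I
    · rw [xg_pos g q h, sub_eq_add_neg, FX56.neg_q]
    · rw [xg_neg g q h, sub_zero, add_zero]

theorem cross_of (g : Glue P) {q : ℕ} (hq : 0 < q) {t : ZMod (2 * q)} {a b : E × E}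
    (h : (phases_of_glue g hq).glue.Cross t a b) : g.Cross a b := by
  obtain ⟨h1, h2, h3, y, hy, h4, h5⟩ := h
  have ha : a.2 ∈ P.act y := by rw [h4]; simp
  have hI := inv_iff g hq a.2 t
  refine ⟨h1, h2, ?_, y, hy, h4, ?_⟩
  · rw [h3]
    unfold SGlue.star Glue.star
    by_cases h6 : a.2 ∈ g.I
    · rw [if_pos h6]
      exact if_pos (hI.2 h6)
    · rw [if_neg h6]
      exact if_neg fun h7 => h6 (hI.1 h7)
  · rw [← h5]
    congr 1
    unfold SGlue.j Glue.j
    by_cases h6 : a.2 ∈ g.I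
    · have h7 : a.2 ∈ (phases_of_glue g hq).glue.I t := hI.2 h6
      rw [if_pos h6, if_pos h7,
        FX56.c_uniqI ha.1 (g.inv _ ha.1 h6) ((phases_of_glue g hq).glue.inv _ _ ha.1 h7)]
    · have h7 : a.2 ∉ (phases_of_glue g hq).glue.I t := fun h7 => h6 (hI.1 h7)
      rw [if_neg h6, if_neg h7,
        FX56.c_uniqT ha.1 (g.tr _ ha.1 h6) ((phases_of_glue g hq).glue.tr _ _ ha.1 h7) (back g ha.1 h6)]

open Classical in
theorem simple_of_glue (g : Glue P) (hC : g.Cyc) {q : ℕ} (hq : 0 < q) :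
    Simple (phases_of_glue g hq) := by
  intro s a hw
  have hs : ∀ k, s k = s 0 + (((Finset.range k).filter fun i => (a i).2 ∈ g.I).card : ZMod (2 * q)) * q := by
    intro k
    induction k with
    | zero => simp
    | succ k ih =>
      have e1 : s (k + 1) = FX56.nxt (xg g q) (s k) (a k).2 := (hw k).1
      rw [e1, nxt_eq, Finset.range_add_one, Finset.filter_insert]
      by_cases h : (a k).2 ∈ g.I
      · rw [if_pos h, Finset.card_insert_of_notMem (by simp), xg_pos g q h, ih]
        push_cast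
        ring
      · rw [if_neg h, xg_neg g q h, add_zero, ih]
  have heven : ∀ k, Even (((Finset.range k).filter fun i => (a i).2 ∈ g.I).card) → s k = s 0 := by
    intro k hk
    obtain ⟨m, hm⟩ := hk
    rw [hs k, hm]
    push_cast
    have : ((m : ZMod (2 * q)) + m) * q = m * (q + q) := by ring
    rw [this, FX56.q_add_q, mul_zero, add_zero]
  have hodd : ∀ k, ¬ Even (((Finset.range k).filter fun i => (a i).2 ∈ g.I).card) →
      s k = s 0 + (q : ZMod (2 * q)) := by
    intro k hk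
    obtain ⟨m, hm⟩ := Nat.not_even_iff_odd.1 hk
    rw [hs k, hm]
    push_cast
    have : (2 * (m : ZMod (2 * q)) + 1) * q = m * (q + q) + q := by ring
    rw [this, FX56.q_add_q, mul_zero, zero_add]
  rcases hC a fun i => cross_of g hq (hw i).2 with h3 | ⟨h4, h5⟩
  · refine Or.inl ⟨h3, ?_⟩
    by_cases he : Even (((Finset.range 3).filter fun i => (a i).2 ∈ g.I).card)
    · exact Or.inl (heven 3 he)
    · exact Or.inr (hodd 3 he)
  · exact Or.inr ⟨h4, heven 4 h5⟩

/-- NECESSITY with phases modulo a bounded power of two, `q = 1` in dimensions 2 and 3 -/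
theorem nec_bound3 [FiniteDimensional ℝ E] {T : Set (ℝ × E)} (hT : IsFF P T) :
    ∃ m : ℕ, 2 ^ m ≤ 3 ^ P.N.card ∧
      (Module.finrank ℝ E = 2 ∨ Module.finrank ℝ E = 3 → m = 0) ∧
      ∃ x : E → ZMod (2 * 2 ^ m), ∃ h : FX56.Phases P (2 ^ m) x, Simple h := by
  by_cases hd : Module.finrank ℝ E = 2 ∨ Module.finrank ℝ E = 3
  · obtain ⟨I, T', hT'⟩ := FF79.exists_coh23 hd ⟨hT.sign, hT.cover, hT.disj, hT.facet⟩
    obtain ⟨g, -, hC⟩ := (FF79.main P I).1 ⟨T', hT'⟩
    refine ⟨0, ?_, fun _ => rfl, xg g (2 ^ 0), phases_of_glue g (by norm_num), simple_of_glue g hC (by norm_num)⟩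
    rw [pow_zero]
    exact Nat.one_le_pow _ _ (by norm_num)
  · obtain ⟨m, hm, x, h, hS⟩ := nec_bound hT
    exact ⟨m, hm, fun h => absurd h hd, x, h, hS⟩

end Pool.FX79
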